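import Pool.Agent.W2helper91.GRS.Main

/-!
# Bounds for the slack
-/

namespace Pool.Agent.W2helper91.GRS

open Pool.Agent.R558 (cap mem_cap Star)

section

variable {κ : Type*} [DecidableEq κ] [Fintype κ]

/-- the number of sets `Z_i` which do not contain `j` -/
def codeg {k : ℕ} (Z : Fin k → Finset κ) (j : κ) : ℕ :=
  (Finset.univ.filter fun i => j ∉ Z i).card

theorem codeg_pos {k : ℕ} (hk : 0 < k) {Z : Fin k → Finset κ} (hstar : Star k Z) (j : κ) :
    1 ≤ codeg Z j := by
  by_contra h0
  have h1 : codeg Z j = 0 := by omega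
  unfold codeg at h1
  rw [Finset.card_eq_zero, Finset.filter_eq_empty_iff] at h1
  have h2 := hstar Finset.univ ⟨⟨0, hk⟩, Finset.mem_univ _⟩
  have h3 : 0 < (cap Z Finset.univ).card := by
    apply Finset.card_pos.mpr
    refine ⟨j, ?_⟩
    rw [mem_cap]
    intro i _
    have := h1 (Finset.mem_univ i)
    push Not at this
    exact this
  rw [Finset.card_univ, Fintype.card_fin] at h2
  omega

theorem slack_add_codeg {k : ℕ} (Z : Fin k → Finset κ) (j : κ) : slack Z j + codeg Z j ≤ k := by
  have h1 : codeg Z j ≤ k := by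
    unfold codeg
    have := Finset.card_filter_le (Finset.univ : Finset (Fin k)) (fun i => j ∉ Z i)
    rwa [Finset.card_univ, Fintype.card_fin] at this
  have h2 : slack Z j ≤ k - codeg Z j := by
    unfold slack codeg
    omega
  omega

theorem sum_codeg {k : ℕ} {Z : Fin k → Finset κ} (hZ : ∀ i, (Z i).card + 1 = k) :
    ∑ j, codeg Z j + k * k = k * (Fintype.card κ + 1) := by
  have h1 : ∑ j, codeg Z j = ∑ i : Fin k, (Finset.univ.filter fun j => j ∉ Z i).card := by
    unfold codeg
    simp only [Finset.card_filter]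
    rw [Finset.sum_comm]
  have h2 : ∀ i : Fin k, (Finset.univ.filter fun j => j ∉ Z i).card + k =
      Fintype.card κ + 1 := by
    intro i
    have h3 := Finset.card_filter_add_card_filter_not (s := (Finset.univ : Finset κ))
      (fun j => j ∈ Z i)
    have h4 : (Finset.univ.filter fun j => j ∈ Z i) = Z i := by
      ext l
      simp
    rw [h4, Finset.card_univ] at h3
    have := hZ i
    omega
  have h3 : ∑ i : Fin k, ((Finset.univ.filter fun j => j ∉ Z i).card + k) =
      ∑ i : Fin k, (Fintype.card κ + 1) := Finset.sum_congr rfl fun i _ => h2 i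
  rw [Finset.sum_add_distrib, ← h1] at h3
  simp only [Finset.sum_const, Finset.card_univ, Fintype.card_fin, smul_eq_mul] at h3
  exact h3

theorem slack_le {k r : ℕ} {Z : Fin k → Finset κ} (hZ : ∀ i, (Z i).card + 1 = k)
    (hr : k + r = Fintype.card κ) (j : κ) :
    slack Z j = 0 ∨ slack Z j + codeg Z j + r ≤ codeg Z j * r + 1 := by
  rcases Nat.eq_zero_or_pos (slack Z j) with h0 | h0
  · exact Or.inl h0
  right
  set Ω := Finset.univ.filter fun i => j ∉ Z i with hΩ
  have hc : codeg Z j = Ω.card := rfl
  have hs : slack Z j = k - Ω.card - (cap Z Ω).card := rfl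
  have h1 : (Finset.univ : Finset κ) ⊆
      cap Z Ω ∪ insert j (Ω.biUnion fun i => (Finset.univ \ Z i).erase j) := by
    intro l _
    rw [Finset.mem_union, Finset.mem_insert, Finset.mem_biUnion, mem_cap]
    by_cases h2 : ∀ i ∈ Ω, l ∈ Z i
    · exact Or.inl h2
    · right
      push Not at h2
      obtain ⟨i, hi, hl⟩ := h2
      by_cases h3 : l = j
      · exact Or.inl h3
      · right
        exact ⟨i, hi, by simp [h3, hl]⟩
  have h2 : (Ω.biUnion fun i => (Finset.univ \ Z i).erase j).card ≤ Ω.card * r := by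
    apply Finset.card_biUnion_le_card_mul
    intro i hi
    have h3 : j ∈ Finset.univ \ Z i := by
      rw [hΩ, Finset.mem_filter] at hi
      simp [hi.2]
    rw [Finset.card_erase_of_mem h3, Finset.card_sdiff_of_subset (Finset.subset_univ _),
      Finset.card_univ]
    have := hZ i
    omega
  have h3 := Finset.card_le_card h1
  have h4 := Finset.card_union_le (cap Z Ω) (insert j (Ω.biUnion fun i =>
    (Finset.univ \ Z i).erase j))
  have h5 := Finset.card_insert_le j (Ω.biUnion fun i => (Finset.univ \ Z i).erase j)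
  rw [Finset.card_univ] at h3
  rw [hc]
  omega

/-- arithmetic for the first bound -/
theorem arith1 {n m t N : ℕ} (hm : m ≤ n) (ht : t ≤ n) (hmt : m * t ≤ N) (hn : 0 < n) :
    m + t ≤ n + N / n := by
  have h1 : (m + t - n) ≤ N / n := by
    rw [Nat.le_div_iff_mul_le hn]
    rcases Nat.lt_or_ge (m + t) n with h2 | h2
    · have : m + t - n = 0 := by omega
      rw [this, zero_mul]
      exact Nat.zero_le _
    · obtain ⟨a, ha⟩ := Nat.exists_eq_add_of_le hm
      obtain ⟨b, hb⟩ := Nat.exists_eq_add_of_le ht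
      have h3 : m + t - n + b = m := by omega
      refine le_trans ?_ hmt
      have h4 : m + t - n = m - b := by omega
      -- (m - b) * n ≤ m * t
      have h5 : b ≤ m := by omega
      obtain ⟨d, hd⟩ := Nat.exists_eq_add_of_le h5
      rw [h4]
      have h6 : m - b = d := by omega
      rw [h6]
      have h7 : n = t + b := hb
      have h8 : d ≤ t := by omega
      rw [h7, hd]
      nlinarith
  omega

/-- arithmetic for the second bound -/
theorem arith2 {k r m t c : ℕ} (hr : 1 ≤ r) (hm : m ≤ k + r) (ht : t + c ≤ k)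
    (htc : t + c + r ≤ c * r + 1) (hmc : m * c ≤ k * (r + 1)) :
    m + t ≤ k + r + (r - 1) ^ 2 := by
  obtain ⟨s, rfl⟩ : ∃ s, r = s + 1 := ⟨r - 1, by omega⟩
  simp only [Nat.add_sub_cancel]
  by_contra hcon
  push Not at hcon
  zify at *
  have hs0 : (0 : ℤ) ≤ s := by positivity
  have hc0 : (0 : ℤ) ≤ c := by positivity
  have ht1 : (t : ℤ) ≤ (c - 1) * s := by nlinarith
  have ht2 : (s : ℤ) ^ 2 < t := by nlinarith
  have hc1 : (s : ℤ) + 2 ≤ c := by
    by_contra h
    push Not at h
    have h1 : (c : ℤ) - 1 ≤ s := by linarith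
    nlinarith
  have hmul : (c : ℤ) * (k + (s + 1) + s ^ 2 + 1 - t) ≤ k * (s + 1 + 1) := by
    have h1 : (k : ℤ) + (s + 1) + s ^ 2 + 1 - t ≤ m := by linarith
    have h2 := mul_le_mul_of_nonneg_left h1 hc0
    linarith
  rcases le_total ((k : ℤ) - c) ((c - 1) * s) with h | h
  · have h1 : (c : ℤ) * c ≤ c * (k - t) := mul_le_mul_of_nonneg_left (by linarith) hc0
    have h2 : (k : ℤ) * (s + 2) ≤ (c + (c - 1) * s) * (s + 2) :=
      mul_le_mul_of_nonneg_right (by linarith) (by linarith)
    nlinarith [sq_nonneg ((c : ℤ) - s - 1)]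
  · have h1 : (c : ℤ) * (k - (c - 1) * s) ≤ c * (k - t) :=
      mul_le_mul_of_nonneg_left (by linarith) hc0
    have h2 : (c + (c - 1) * s) * ((c : ℤ) - s - 2) ≤ k * (c - s - 2) :=
      mul_le_mul_of_nonneg_right (by linarith) (by linarith)
    nlinarith [sq_nonneg ((c : ℤ) - s - 1)]

theorem criterion_of_le {k : ℕ} (hk : 0 < k) (hkn : k ≤ Fintype.card κ) {Z : Fin k → Finset κ}
    (hZ : ∀ i, (Z i).card + 1 = k) (hstar : Star k Z) (j : κ) :
    (Finset.univ.filter fun l => slack Z j ≤ slack Z l).card + slack Z j ≤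
      Fintype.card κ + min (k * (k - 1) / Fintype.card κ) ((Fintype.card κ - k - 1) ^ 2) := by
  set n := Fintype.card κ with hn
  set T := Finset.univ.filter fun l => slack Z j ≤ slack Z l with hT
  have hm : T.card ≤ n := Finset.card_le_univ _
  have hjT : j ∈ T := by rw [hT]; simp
  have hTne : T.Nonempty := ⟨j, hjT⟩
  have htk : slack Z j + 1 ≤ k := by
    have h1 := slack_add_codeg Z j
    have h2 := codeg_pos hk hstar j
    omega
  have hsum := sum_codeg hZ
  rw [← hn] at hsum
  have h1 : T.card + slack Z j ≤ n + k * (k - 1) / n := by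
    refine arith1 hm (by omega) ?_ (by omega)
    have h2 : ∑ l, slack Z l + ∑ l, codeg Z l ≤ n * k := by
      rw [← Finset.sum_add_distrib]
      have : ∑ l : κ, (slack Z l + codeg Z l) ≤ ∑ _l : κ, k :=
        Finset.sum_le_sum fun l _ => slack_add_codeg Z l
      rwa [Finset.sum_const, Finset.card_univ, smul_eq_mul, ← hn] at this
    have h3 : T.card * slack Z j ≤ ∑ l, slack Z l := by
      calc T.card * slack Z j ≤ ∑ l ∈ T, slack Z l := by
            apply Finset.card_nsmul_le_sum
            intro l hl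
            rw [hT, Finset.mem_filter] at hl
            exact hl.2
        _ ≤ ∑ l, slack Z l := Finset.sum_le_sum_of_subset (Finset.subset_univ _)
    obtain ⟨k', rfl⟩ : ∃ k', k = k' + 1 := ⟨k - 1, by omega⟩
    simp only [Nat.add_sub_cancel]
    nlinarith
  have h2 : T.card + slack Z j ≤ n + (n - k - 1) ^ 2 := by
    obtain ⟨r, hr⟩ : ∃ r, k + r = n := ⟨n - k, by omega⟩
    rcases Nat.eq_zero_or_pos (slack Z j) with h0 | h0
    · rw [h0]
      omega
    obtain ⟨l0, hl0, hmin⟩ := Finset.exists_min_image T (codeg Z) hTne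
    have hl0' : slack Z j ≤ slack Z l0 := by
      rw [hT, Finset.mem_filter] at hl0
      exact hl0.2
    have h3 := slack_le hZ (by rw [hr]) l0
    have h4 := slack_add_codeg Z l0
    have h5 : T.card * codeg Z l0 ≤ k * (r + 1) := by
      have h6 : T.card * codeg Z l0 ≤ ∑ l, codeg Z l := by
        calc T.card * codeg Z l0 ≤ ∑ l ∈ T, codeg Z l := by
              apply Finset.card_nsmul_le_sum
              exact hmin
          _ ≤ ∑ l, codeg Z l := Finset.sum_le_sum_of_subset (Finset.subset_univ _)
      have h7 : ∑ l, codeg Z l = k * (r + 1) := by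
        have h8 : k * (n + 1) = k * (r + 1) + k * k := by
          rw [← hr]
          ring
        omega
      rw [h7] at h6
      exact h6
    have hr1 : 1 ≤ r := by
      by_contra h
      have h8 : r = 0 := by omega
      have h9 := codeg_pos hk hstar l0
      rcases h3 with h3 | h3
      · omega
      · rw [h8] at h3
        omega
    have h6 := arith2 (k := k) (r := r) (m := T.card) (t := slack Z j) (c := codeg Z l0) hr1
      (by omega) (by omega) (by
        rcases h3 with h3 | h3
        · omega
        · omega) h5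
    rw [← hr]
    have h7 : k + r - k - 1 = r - 1 := by omega
    rw [h7]
    exact h6
  rw [← min_add_add_left]
  exact le_min h1 h2

end

end Pool.Agent.W2helper91.GRS
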