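import Pool.Agent.W2helper91.GRS.System

/-!
# The four reduction steps (ordinary polynomials)
-/

open Polynomial

namespace Pool.Agent.W2helper91.GRS

set_option linter.unusedSectionVars false

open Pool.Agent.R558 (cap Good open_inj mem_cap sum_row)

section

variable {L : Type*} [Field L] [Infinite L]
variable {ι κ : Type*} [DecidableEq ι] [Fintype κ] [DecidableEq κ]

omit [Infinite L] [DecidableEq κ] in
variable (L κ) in
/-- a nonzero polynomial whose nonvanishing means that the points are distinct and nonzero -/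
theorem exists_dist_poly : ∃ D : MvPolynomial κ L, D ≠ 0 ∧
    ∀ g : κ → L, MvPolynomial.eval g D ≠ 0 → Function.Injective g ∧ ∀ j, g j ≠ 0 := by
  classical
  refine ⟨(∏ p ∈ (Finset.univ : Finset (κ × κ)).filter (fun p => p.1 ≠ p.2),
    (MvPolynomial.X p.1 - MvPolynomial.X p.2)) * ∏ j, MvPolynomial.X j, ?_, ?_⟩
  · apply mul_ne_zero
    · rw [Finset.prod_ne_zero_iff]
      intro p hp h0
      rw [Finset.mem_filter] at hp
      have h1 := congrArg (MvPolynomial.eval (Pi.single p.1 (1 : L))) h0
      rw [map_sub, map_zero, MvPolynomial.eval_X, MvPolynomial.eval_X, Pi.single_eq_same,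
        Pi.single_eq_of_ne (Ne.symm hp.2)] at h1
      simp at h1
    · rw [Finset.prod_ne_zero_iff]
      intro j _
      exact MvPolynomial.X_ne_zero j
  · intro g hg
    rw [map_mul, map_prod, map_prod] at hg
    have h1 := Finset.prod_ne_zero_iff.mp (left_ne_zero_of_mul hg)
    have h2 := Finset.prod_ne_zero_iff.mp (right_ne_zero_of_mul hg)
    refine ⟨fun a b hab => ?_, fun j => ?_⟩
    · by_contra hne
      apply h1 (a, b) (Finset.mem_filter.mpr ⟨Finset.mem_univ _, hne⟩)
      simp [hab]
    · have := h2 j (Finset.mem_univ _)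
      simpa using this

/-- for distinct nonzero points, a vector with first coordinate zero and `K` zeros vanishes -/
theorem vanish {K : ℕ} {T : Finset κ} {g : κ → L} (hg : Function.Injective g)
    (hg0 : ∀ j, g j ≠ 0) (hT : T.card = K)
    {a : ℕ → L} (h0 : a 0 = 0)
    (h : ∀ j ∈ T, ∑ t ∈ Finset.range (K + 1), a t * g j ^ t = 0) :
    ∀ t < K + 1, a t = 0 := by
  classical
  set f : L[X] := ∑ t ∈ Finset.range (K + 1), C (a t) * X ^ t with hf
  have hcoeff : ∀ t < K + 1, f.coeff t = a t := by
    intro t ht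
    rw [hf, finsetSum_coeff]
    simp only [coeff_C_mul, coeff_X_pow, mul_ite, mul_one, mul_zero]
    rw [Finset.sum_ite_eq, if_pos (Finset.mem_range.mpr ht)]
  have hdeg : f.degree < ((insert 0 (T.image g)).card : ℕ) := by
    have hcard : (insert 0 (T.image g)).card = K + 1 := by
      rw [Finset.card_insert_of_notMem, Finset.card_image_of_injective _ hg, hT]
      rw [Finset.mem_image]
      rintro ⟨j, _, hj⟩
      exact hg0 j hj
    rw [hcard, hf]
    refine lt_of_le_of_lt (degree_sum_le _ _) ?_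
    rw [Finset.sup_lt_iff (by exact WithBot.bot_lt_coe _)]
    intro t ht
    refine lt_of_le_of_lt (degree_C_mul_X_pow_le _ _) ?_
    exact_mod_cast Finset.mem_range.mp ht
  have hf0 : f = 0 := by
    apply eq_zero_of_degree_lt_of_eval_finset_eq_zero (insert 0 (T.image g)) hdeg
    intro x hx
    rcases Finset.mem_insert.mp hx with rfl | hx
    · rw [← coeff_zero_eq_eval_zero, hcoeff 0 (by omega), h0]
    · obtain ⟨j, hj, rfl⟩ := Finset.mem_image.mp hx
      rw [hf, eval_finsetSum, ← h j hj]
      refine Finset.sum_congr rfl fun t _ => ?_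
      simp
  intro t ht
  rw [← hcoeff t ht, hf0, coeff_zero]

/-- all spaces have the first coordinate zero -/
theorem caseA {K : ℕ} {I : Finset ι} {S : ι → Finset κ} {τ : ι → ℕ} (hτ : ∀ i ∈ I, 1 ≤ τ i)
    {g' : κ → L} (h : PInj K I S (fun i => τ i - 1) g') :
    ∃ g : κ → L, PInj (K + 1) I S τ g := by
  obtain ⟨D, hD0, hD⟩ := exists_dist_poly L κ
  obtain ⟨g, hgD, hg⟩ := h.exists_and D hD0
  have hg0 := (hD g hgD).2
  refine ⟨g, fun a h1 h2 h3 => ?_⟩
  have h0 : ∀ i ∈ I, a i 0 = 0 := fun i hi => h1 i hi 0 (hτ i hi)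
  have key := hg (fun i t => a i (t + 1)) ?_ ?_ ?_
  · intro i hi t ht
    rcases t with _ | t
    · exact h0 i hi
    · exact key i hi t (by omega)
  · intro i hi t ht
    have ht' : t < τ i - 1 := ht
    apply h1 i hi
    have := hτ i hi
    omega
  · intro i hi j hj
    have h4 := h2 i hi j hj
    rw [Finset.sum_range_succ', h0 i hi, zero_mul, add_zero] at h4
    have h5 : g j * ∑ t ∈ Finset.range K, a i (t + 1) * g j ^ t = 0 := by
      rw [← h4, Finset.mul_sum]
      refine Finset.sum_congr rfl fun t _ => ?_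
      ring
    exact (mul_eq_zero.mp h5).resolve_left (hg0 j)
  · intro t ht
    exact h3 (t + 1) (by omega)

/-- a common zero `g_j`: divide by `Y - g_j` -/
theorem caseB {K : ℕ} {I : Finset ι} {S : ι → Finset κ} {τ : ι → ℕ} (j : κ)
    (hj : ∀ i ∈ I, j ∈ S i) {g' : κ → L}
    (h : PInj K I (fun i => (S i).erase j) τ g') :
    ∃ g : κ → L, PInj (K + 1) I S τ g := by
  obtain ⟨D, hD0, hD⟩ := exists_dist_poly L κ
  obtain ⟨g, hgD, hg⟩ := h.exists_and D hD0
  obtain ⟨hinj, hg0⟩ := hD g hgD
  refine ⟨g, fun a h1 h2 h3 => ?_⟩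
  -- Abel summation: `b_t = - g_j^{-(t+1)} ∑_{s ≤ t} a_s g_j^s`
  set u := g j with hu
  have hu0 : u ≠ 0 := hg0 j
  let b : ι → ℕ → L := fun i t => -(u ^ (t + 1))⁻¹ * ∑ s ∈ Finset.range (t + 1), a i s * u ^ s
  have hb0 : ∀ i, a i 0 = - u * b i 0 := by
    intro i
    simp only [b]
    simp
    field_simp
  have hb1 : ∀ i t, a i (t + 1) = b i t - u * b i (t + 1) := by
    intro i t
    simp only [b]
    rw [Finset.sum_range_succ _ (t + 1)]
    field_simp
    ring
  have hbK : ∀ i ∈ I, b i K = 0 := by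
    intro i hi
    simp only [b]
    rw [h2 i hi j (hj i hi), mul_zero]
  have hprod : ∀ i ∈ I, ∀ y : L, ∑ t ∈ Finset.range (K + 1), a i t * y ^ t =
      (y - u) * ∑ t ∈ Finset.range K, b i t * y ^ t := by
    intro i hi y
    have h5 : ∀ M : ℕ, ∑ t ∈ Finset.range (M + 1), a i t * y ^ t =
        (y - u) * ∑ t ∈ Finset.range M, b i t * y ^ t - u * b i M * y ^ M := by
      intro M
      induction M with
      | zero => simp [hb0 i]
      | succ M ih =>
        rw [Finset.sum_range_succ, ih, Finset.sum_range_succ _ M, hb1 i M]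
        ring
    rw [h5 K, hbK i hi]
    ring
  have key := hg b ?_ ?_ ?_
  · intro i hi t ht
    rcases t with _ | t
    · rw [hb0 i]
      rcases Nat.eq_zero_or_pos K with h6 | h6
      · have := hbK i hi
        rw [h6] at this
        rw [this, mul_zero]
      · rw [key i hi 0 h6, mul_zero]
    · rw [hb1 i t, key i hi t (by omega)]
      rcases Nat.lt_or_ge (t + 1) K with h6 | h6
      · rw [key i hi (t + 1) h6]
        simp
      · have h7 : t + 1 = K := by omega
        rw [h7, hbK i hi]
        simp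
  · intro i hi t ht
    simp only [b]
    rw [Finset.sum_eq_zero, mul_zero]
    intro s hs
    rw [Finset.mem_range] at hs
    rw [h1 i hi s (by omega), zero_mul]
  · intro i hi l hl
    rw [Finset.mem_erase] at hl
    have h4 := h2 i hi l hl.2
    rw [hprod i hi] at h4
    refine (mul_eq_zero.mp h4).resolve_left ?_
    intro h5
    exact hl.1 (hinj (sub_eq_zero.mp h5))
  · intro t ht
    simp only [b]
    rw [← Finset.mul_sum, Finset.sum_comm]
    rw [Finset.sum_eq_zero (s := Finset.range (t + 1)), mul_zero]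
    intro s hs
    rw [Finset.mem_range] at hs
    rw [← Finset.sum_mul, h3 s (by omega), zero_mul]

omit [Infinite L] [Fintype κ] in
/-- merging a subfamily -/
theorem caseC [Fintype κ] {k : ℕ} {I : Finset ι} {S : ι → Finset κ} {τ : ι → ℕ} {g : κ → L}
    {Ω : Finset ι} (hΩI : Ω ⊆ I) {i0 : ι} (hi0 : i0 ∈ Ω) {m : ℕ} (hm : ∀ i ∈ Ω, m ≤ τ i)
    (hΩ : PInj k Ω S τ g)
    (hI : PInj k (insert i0 (I \ Ω)) (Function.update S i0 (cap S Ω)) (Function.update τ i0 m) g) :
    PInj k I S τ g := by
  intro a h1 h2 h3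
  have hne : ∀ i ∈ I \ Ω, i ≠ i0 := by
    rintro i hi rfl
    exact (Finset.mem_sdiff.mp hi).2 hi0
  have hni : i0 ∉ I \ Ω := fun h => hne i0 h rfl
  let b : ι → ℕ → L := fun i t => if i = i0 then ∑ i' ∈ Ω, a i' t else a i t
  have hb0 : ∀ t, b i0 t = ∑ i' ∈ Ω, a i' t := fun t => if_pos rfl
  have hb1 : ∀ i ∈ I \ Ω, ∀ t, b i t = a i t := fun i hi t => if_neg (hne i hi)
  have key := hI b ?_ ?_ ?_
  · have h4 : ∀ i ∈ Ω, ∀ t < k, a i t = 0 := by
      apply hΩ a (fun i hi => h1 i (hΩI hi)) (fun i hi => h2 i (hΩI hi))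
      intro t ht
      rw [← hb0]
      exact key i0 (Finset.mem_insert_self _ _) t ht
    intro i hi t ht
    by_cases hiΩ : i ∈ Ω
    · exact h4 i hiΩ t ht
    · have hi' : i ∈ I \ Ω := Finset.mem_sdiff.mpr ⟨hi, hiΩ⟩
      rw [← hb1 i hi']
      exact key i (Finset.mem_insert_of_mem hi') t ht
  · intro i hi t ht
    rcases Finset.mem_insert.mp hi with rfl | hi
    · rw [Function.update_self] at ht
      rw [hb0]
      apply Finset.sum_eq_zero
      intro i' hi'
      exact h1 i' (hΩI hi') t (lt_of_lt_of_le ht (hm i' hi'))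
    · rw [Function.update_of_ne (hne i hi)] at ht
      rw [hb1 i hi]
      exact h1 i (Finset.mem_sdiff.mp hi).1 t ht
  · intro i hi j hj
    rcases Finset.mem_insert.mp hi with rfl | hi
    · rw [Function.update_self] at hj
      have hj' : ∀ i' ∈ Ω, j ∈ S i' := (Finset.mem_filter.mp hj).2
      simp only [hb0, Finset.sum_mul]
      rw [Finset.sum_comm]
      apply Finset.sum_eq_zero
      intro i' hi'
      exact h2 i' (hΩI hi') j (hj' i' hi')
    · rw [Function.update_of_ne (hne i hi)] at hj
      simp only [hb1 i hi]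
      exact h2 i (Finset.mem_sdiff.mp hi).1 j hj
  · intro t ht
    rw [Finset.sum_insert hni, hb0, Finset.sum_congr rfl (fun i hi => hb1 i hi t), add_comm,
      Finset.sum_sdiff hΩI]
    exact h3 t ht

/-- the matrix for the specialization step -/
noncomputable def specMat (k : ℕ) (I : Finset ι) (S : ι → Finset κ) (τ : ι → ℕ) (j : κ)
    (g' : κ → L) :
    Matrix ((I × Fin k) ⊕ ((I × κ) ⊕ (I ⊕ Fin k))) (I × Fin k) L[X] := fun w v =>
  match w with
  | Sum.inl (i, t) => if i = v.1 ∧ (t = v.2 ∧ (t : ℕ) < τ i) then 1 else 0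
  | Sum.inr (Sum.inl (i, l)) =>
      if i = v.1 ∧ (l ∈ S i ∧ l ≠ j) then C (g' l ^ (v.2 : ℕ)) else 0
  | Sum.inr (Sum.inr (Sum.inl i)) =>
      if i = v.1 ∧ (j ∈ S i ∧ τ i ≤ (v.2 : ℕ)) then X ^ ((v.2 : ℕ) - τ i) else 0
  | Sum.inr (Sum.inr (Sum.inr t)) => if t = v.2 then 1 else 0

omit [Infinite L] in
/-- what it means that a vector is in the kernel of the specialized matrix -/
theorem spec_ker {k : ℕ} {I : Finset ι} {S : ι → Finset κ} {τ : ι → ℕ} {j : κ}
    {g' : κ → L} (y : L) (v : I × Fin k → L) :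
    ((specMat k I S τ j g').map (aeval y : L[X] →ₐ[L] L)).mulVec v = 0 ↔
      (∀ (i : I) (t : Fin k), (t : ℕ) < τ i → v (i, t) = 0) ∧
      (∀ (i : I) (l : κ), l ∈ S i → l ≠ j → ∑ t : Fin k, v (i, t) * g' l ^ (t : ℕ) = 0) ∧
      (∀ i : I, j ∈ S i → ∑ t : Fin k, (if τ i ≤ (t : ℕ) then
        v (i, t) * y ^ ((t : ℕ) - τ i) else 0) = 0) ∧
      (∀ t : Fin k, ∑ i : I, v (i, t) = 0) := by
  have e1 : ∀ (i : I) (t : Fin k),
      ((specMat k I S τ j g').map (aeval y : L[X] →ₐ[L] L)).mulVec v (Sum.inl (i, t)) =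
      if (t : ℕ) < τ i then v (i, t) else 0 := by
    intro i t
    have : ∀ w : I × Fin k, ((specMat k I S τ j g').map (aeval y : L[X] →ₐ[L] L))
        (Sum.inl (i, t)) w = if i = w.1 ∧ (t = w.2 ∧ (t : ℕ) < τ i) then (1 : L) else 0 := by
      intro w
      simp only [Matrix.map_apply, specMat]
      split_ifs <;> simp
    simp only [Matrix.mulVec, dotProduct, this]
    rw [sum_row i (fun s => t = s ∧ (t : ℕ) < τ i) (fun _ => 1), Finset.sum_eq_single t]
    · by_cases h : (t : ℕ) < τ i
      · simp [h]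
      · simp [h]
    · intro b _ hb
      rw [if_neg, zero_mul]
      rintro ⟨h, -⟩
      exact hb h.symm
    · simp
  have e2 : ∀ (i : I) (l : κ),
      ((specMat k I S τ j g').map (aeval y : L[X] →ₐ[L] L)).mulVec v (Sum.inr (Sum.inl (i, l))) =
      if l ∈ S i ∧ l ≠ j then ∑ t : Fin k, v (i, t) * g' l ^ (t : ℕ) else 0 := by
    intro i l
    have : ∀ w : I × Fin k, ((specMat k I S τ j g').map (aeval y : L[X] →ₐ[L] L))
        (Sum.inr (Sum.inl (i, l))) w =
        if i = w.1 ∧ (l ∈ S i ∧ l ≠ j) then g' l ^ (w.2 : ℕ) else 0 := by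
      intro w
      simp only [Matrix.map_apply, specMat]
      split_ifs <;> simp
    simp only [Matrix.mulVec, dotProduct, this]
    rw [sum_row i (fun s => l ∈ S i ∧ l ≠ j) (fun t => g' l ^ (t : ℕ))]
    split_ifs with h
    · refine Finset.sum_congr rfl fun t _ => mul_comm _ _
    · simp
  have e3 : ∀ i : I,
      ((specMat k I S τ j g').map (aeval y : L[X] →ₐ[L] L)).mulVec v
        (Sum.inr (Sum.inr (Sum.inl i))) =
      if j ∈ S i then ∑ t : Fin k, (if τ i ≤ (t : ℕ) then
        v (i, t) * y ^ ((t : ℕ) - τ i) else 0) else 0 := by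
    intro i
    have : ∀ w : I × Fin k, ((specMat k I S τ j g').map (aeval y : L[X] →ₐ[L] L))
        (Sum.inr (Sum.inr (Sum.inl i))) w =
        if i = w.1 ∧ (j ∈ S i ∧ τ i ≤ (w.2 : ℕ)) then y ^ ((w.2 : ℕ) - τ i) else 0 := by
      intro w
      simp only [Matrix.map_apply, specMat]
      split_ifs <;> simp
    simp only [Matrix.mulVec, dotProduct, this]
    rw [sum_row i (fun s => j ∈ S i ∧ τ i ≤ (s : ℕ)) (fun t => y ^ ((t : ℕ) - τ i))]
    split_ifs with h
    · refine Finset.sum_congr rfl fun t _ => ?_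
      by_cases h5 : τ i ≤ (t : ℕ)
      · simp [h, h5, mul_comm]
      · simp [h5]
    · simp [h]
  have e4 : ∀ t : Fin k,
      ((specMat k I S τ j g').map (aeval y : L[X] →ₐ[L] L)).mulVec v
        (Sum.inr (Sum.inr (Sum.inr t))) = ∑ i : I, v (i, t) := by
    intro t
    have : ∀ w : I × Fin k, ((specMat k I S τ j g').map (aeval y : L[X] →ₐ[L] L))
        (Sum.inr (Sum.inr (Sum.inr t))) w = if t = w.2 then 1 else 0 := by
      intro w
      simp only [Matrix.map_apply, specMat]
      split_ifs <;> simp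
    simp only [Matrix.mulVec, dotProduct, this]
    rw [Fintype.sum_prod_type]
    refine Finset.sum_congr rfl fun i _ => ?_
    rw [Finset.sum_eq_single t]
    · simp
    · intro b _ hb
      rw [if_neg (Ne.symm hb), zero_mul]
    · simp
  constructor
  · intro h
    refine ⟨fun i t ht => ?_, fun i l hl hlj => ?_, fun i hi => ?_, fun t => ?_⟩
    · have := congrFun h (Sum.inl (i, t))
      rw [e1, if_pos ht] at this
      exact this
    · have := congrFun h (Sum.inr (Sum.inl (i, l)))
      rw [e2, if_pos ⟨hl, hlj⟩] at this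
      exact this
    · have := congrFun h (Sum.inr (Sum.inr (Sum.inl i)))
      rw [e3, if_pos hi] at this
      exact this
    · have := congrFun h (Sum.inr (Sum.inr (Sum.inr t)))
      rw [e4] at this
      exact this
  · rintro ⟨h1, h2, h3, h4⟩
    funext w
    rcases w with ⟨i, t⟩ | ⟨i, l⟩ | i | t
    · rw [e1]
      split_ifs with h
      · exact h1 i t h
      · rfl
    · rw [e2]
      split_ifs with h
      · exact h2 i l h.1 h.2
      · rfl
    · rw [e3]
      split_ifs with h
      · exact h3 i h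
      · rfl
    · rw [e4]
      exact h4 t

/-- specialization of one point to zero -/
theorem caseD {k : ℕ} {I : Finset ι} {S : ι → Finset κ} {τ : ι → ℕ} (j : κ)
    {g' : κ → L}
    (h : PInj k I (fun i => (S i).erase j) (fun i => if j ∈ S i then τ i + 1 else τ i) g') :
    ∃ g : κ → L, PInj k I S τ g := by
  classical
  have h0 : ∀ v, ((specMat k I S τ j g').map (aeval (0 : L) : L[X] →ₐ[L] L)).mulVec v = 0 →
      v = 0 := by
    intro v hv
    obtain ⟨h1, h2, h3, h4⟩ := (spec_ker 0 v).mp hv
    let a : ι → ℕ → L := fun i t =>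
      if h : i ∈ I ∧ t < k then v (⟨i, h.1⟩, ⟨t, h.2⟩) else 0
    have ha : ∀ (i : I) (t : Fin k), a i t = v (i, t) := by
      intro i t
      simp only [a]
      rw [dif_pos ⟨i.2, t.2⟩]
    have ha0 : ∀ i t, ¬ t < k → a i t = 0 := by
      intro i t ht
      simp only [a]
      rw [dif_neg]
      rintro ⟨-, h5⟩
      exact ht h5
    have key := h a ?_ ?_ ?_
    · funext ⟨i, t⟩
      rw [← ha]
      exact key i i.2 t t.2
    · intro i hi t ht
      by_cases htk : t < k
      · rw [ha ⟨i, hi⟩ ⟨t, htk⟩]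
        by_cases hj : j ∈ S i
        · simp only [hj, if_true] at ht
          rcases Nat.lt_or_ge t (τ i) with h5 | h5
          · exact h1 ⟨i, hi⟩ ⟨t, htk⟩ h5
          · have h6 : t = τ i := by omega
            have h7 := h3 ⟨i, hi⟩ hj
            rw [Finset.sum_eq_single ⟨t, htk⟩] at h7
            · simp only [h6, le_refl, if_true, Nat.sub_self, pow_zero, mul_one] at h7
              rw [← h7]
              congr 2
              exact Fin.ext h6
            · intro b _ hb
              split_ifs with h8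
              · rw [zero_pow, mul_zero]
                have h8' : τ i ≤ (b : ℕ) := h8
                have h9 : τ i < (b : ℕ) := by
                  rcases Nat.lt_or_ge (τ i) (b : ℕ) with h10 | h10
                  · exact h10
                  · exact absurd (Fin.ext (show (b : ℕ) = t by omega)) hb
                change (b : ℕ) - τ i ≠ 0
                omega
              · rfl
            · simp
        · simp only [hj, if_false] at ht
          exact h1 ⟨i, hi⟩ ⟨t, htk⟩ ht
      · exact ha0 i t htk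
    · intro i hi l hl
      rw [Finset.mem_erase] at hl
      rw [Finset.sum_range]
      rw [← h2 ⟨i, hi⟩ l hl.2 hl.1]
      refine Finset.sum_congr rfl fun t _ => ?_
      rw [ha ⟨i, hi⟩ t]
    · intro t ht
      rw [← Finset.sum_coe_sort, ← h4 ⟨t, ht⟩]
      refine Finset.sum_congr rfl fun i _ => ?_
      exact ha i ⟨t, ht⟩
  obtain ⟨r, hr0, hr⟩ := open_inj (specMat k I S τ j g') (aeval (0 : L)) h0
  obtain ⟨y, hy⟩ : ∃ y : L, (X * r).eval y ≠ 0 := by
    by_contra hcon
    push Not at hcon
    have h1 : X * r = 0 := by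
      apply Polynomial.funext
      intro y
      rw [hcon y, eval_zero]
    rcases mul_eq_zero.mp h1 with h2 | h2
    · exact X_ne_zero h2
    · rw [h2] at hr0
      simp at hr0
  rw [eval_mul, eval_X] at hy
  have hy0 : y ≠ 0 := left_ne_zero_of_mul hy
  have hyr : aeval y r ≠ 0 := by
    rw [coe_aeval_eq_eval]
    exact right_ne_zero_of_mul hy
  have hinj := hr (aeval y) hyr
  refine ⟨Function.update g' j y, fun a h1 h2 h3 => ?_⟩
  have key := hinj (fun v => a v.1 v.2) ?_
  · intro i hi t ht
    exact congrFun key (⟨i, hi⟩, ⟨t, ht⟩)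
  · rw [spec_ker]
    refine ⟨fun i t ht => h1 i i.2 t ht, fun i l hl hlj => ?_, fun i hij => ?_, fun t => ?_⟩
    · have h4 := h2 i i.2 l hl
      rw [Function.update_of_ne hlj, Finset.sum_range] at h4
      exact h4
    · have h4 := h2 i i.2 j hij
      rw [Function.update_self, Finset.sum_range] at h4
      have h5 : (∑ t : Fin k, (if τ i ≤ (t : ℕ) then
          a i t * y ^ ((t : ℕ) - τ i) else 0)) * y ^ (τ i) = 0 := by
        rw [Finset.sum_mul]
        refine Eq.trans ?_ h4
        refine Finset.sum_congr rfl fun t _ => ?_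
        split_ifs with h6
        · rw [mul_assoc, ← pow_add]
          congr 2
          omega
        · rw [h1 i i.2 t (by omega)]
          simp
      rcases mul_eq_zero.mp h5 with h6 | h6
      · exact h6
      · exact absurd h6 (pow_ne_zero _ hy0)
    · have h4 := h3 t t.2
      rw [← Finset.sum_coe_sort] at h4
      exact h4

end

end Pool.Agent.W2helper91.GRS
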