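import Pool.Agent.W2helper91.GRS.Cases

/-!
# The induction: generic points make the family independent (ordinary polynomials)
-/

open Polynomial

namespace Pool.Agent.W2helper91.GRS

open Pool.Agent.R558 (cap Good open_inj mem_cap)

section

variable {L : Type*} [Field L] [Infinite L]
variable {ι κ : Type*} [DecidableEq ι] [Fintype κ] [DecidableEq κ]

/-- **Existence of points making the family independent.** -/
theorem main_exists (k : ℕ) : ∀ (I : Finset ι) (S : ι → Finset κ) (τ : ι → ℕ), Good k I S τ →
    ∃ g : κ → L, PInj k I S τ g := by
  obtain ⟨Dind, hDind0, hDind⟩ := exists_dist_poly L κ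
  induction k using Nat.strong_induction_on with
  | _ k ihk =>
  have step : ∀ c : ℕ, ∀ I : Finset ι, I.card = c → ∀ (S : ι → Finset κ) (τ : ι → ℕ),
      Good k I S τ → ∃ g : κ → L, PInj k I S τ g := by
    intro c
    induction c using Nat.strong_induction_on with
    | _ c ihc =>
    intro I hc
    have step2 : ∀ s : ℕ, ∀ (S : ι → Finset κ) (τ : ι → ℕ), (∑ i ∈ I, (S i).card) = s →
        Good k I S τ → ∃ g : κ → L, PInj k I S τ g := by
      intro s
      induction s using Nat.strong_induction_on with
      | _ s ihs =>
      intro S τ hs hG
      by_cases h1 : I.card ≤ 1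
      · refine ⟨0, fun a _ _ h3 i hi t ht => ?_⟩
        have h4 := h3 t ht
        have h5 : I = {i} := by
          apply Finset.eq_singleton_iff_unique_mem.mpr
          exact ⟨hi, fun x hx => Finset.card_le_one.mp h1 x hx i hi⟩
        rw [h5, Finset.sum_singleton] at h4
        exact h4
      have h1' : 2 ≤ I.card := by omega
      obtain ⟨iₓ, hiₓ⟩ : I.Nonempty := Finset.card_pos.mp (by omega)
      obtain ⟨K, hK⟩ : ∃ K, k = K + 1 := ⟨k - 1, by have := hG.lt iₓ hiₓ; omega⟩
      by_cases hA : ∀ i ∈ I, 1 ≤ τ i
      · subst hK
        obtain ⟨g', hg'⟩ := ihk K (by omega) I S _ (hG.pred hA)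
        exact caseA hA hg'
      by_cases hB : ∃ j, ∀ i ∈ I, j ∈ S i
      · obtain ⟨j, hj⟩ := hB
        subst hK
        obtain ⟨g', hg'⟩ := ihk K (by omega) I _ τ (hG.erase hj)
        exact caseB j hj hg'
      by_cases hC : ∃ Ω ⊆ I, 2 ≤ Ω.card ∧ Ω.card < I.card ∧ ∃ m, (∀ i ∈ Ω, m ≤ τ i) ∧
          ∑ i ∈ Ω, (k - (S i).card - τ i) + (cap S Ω).card + m = k
      · obtain ⟨Ω, hΩI, hΩ2, hΩc, m, hm, ht⟩ := hC
        obtain ⟨i0, hi0⟩ : Ω.Nonempty := Finset.card_pos.mp (by omega)
        obtain ⟨g1, hg1⟩ := ihc Ω.card (by omega) Ω rfl S τ (hG.mono hΩI)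
        have hcard : (insert i0 (I \ Ω)).card < I.card := by
          have h2 := Finset.card_insert_le i0 (I \ Ω)
          have h3 := Finset.card_sdiff_add_card_eq_card hΩI
          omega
        obtain ⟨g2, hg2⟩ := ihc _ (by omega) (insert i0 (I \ Ω)) rfl _ _
          (hG.merge hΩI hi0 hm ht)
        obtain ⟨Δ, hΔ0, hΔ⟩ := hg1.exists_poly
        have hΔne : Δ ≠ 0 := by
          rintro rfl
          simp at hΔ0
        obtain ⟨g, hg3, hg4⟩ := hg2.exists_and Δ hΔne
        exact ⟨g, caseC hΩI hi0 hm (hΔ g hg3) hg4⟩
      push Not at hA hB hC
      obtain ⟨i1, hi1, hτ1⟩ := hA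
      have hτ1' : τ i1 = 0 := by omega
      have hC' : ∀ Ω ⊆ I, 2 ≤ Ω.card → Ω.card < I.card → ∀ m, (∀ i ∈ Ω, m ≤ τ i) →
          ∑ i ∈ Ω, (k - (S i).card - τ i) + (cap S Ω).card + m < k := by
        intro Ω hΩ h2 h3 m hm
        have h4 := hG.bound Ω hΩ (Finset.card_pos.mp (by omega)) m hm
        have h5 := hC Ω hΩ h2 h3 m hm
        omega
      by_cases hD : ∃ j, (∃ i ∈ I, j ∈ S i) ∧ ((∃ i ∈ I, τ i = 0 ∧ j ∉ S i) ∨
          ∑ i ∈ I, (k - (S i).card - τ i) + 1 ≤ k)
      · obtain ⟨j, ⟨i2, hi2, hji2⟩, hD⟩ := hD
        have hG' := hG.spec ⟨i1, hi1, hτ1'⟩ hB hC' hD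
        have hlt : ∑ i ∈ I, ((S i).erase j).card < s := by
          rw [← hs]
          apply Finset.sum_lt_sum
          · intro i _
            exact Finset.card_le_card (Finset.erase_subset _ _)
          · exact ⟨i2, hi2, Finset.card_erase_lt_of_mem hji2⟩
        obtain ⟨g', hg'⟩ := ihs _ hlt _ _ rfl hG'
        exact caseD j hg'
      · push Not at hD
        -- all sets are contained in `S i1`
        have hsub : ∀ i ∈ I, S i ⊆ S i1 := by
          intro i hi j hj
          by_contra hcon
          exact hcon ((hD j ⟨i, hi, hj⟩).1 i1 hi1 hτ1')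
        have huniq : ∀ i ∈ I, i ≠ i1 → 1 ≤ τ i := by
          intro i hi hne
          by_contra hcon
          have hτi : τ i = 0 := by omega
          have hsub2 : S i1 ⊆ S i := by
            intro j hj
            exact (hD j ⟨i1, hi1, hj⟩).1 i hi hτi
          have heq : S i = S i1 := Finset.Subset.antisymm (hsub i hi) hsub2
          have h2 := hG.bound {i, i1} (by
            intro x hx
            rcases Finset.mem_insert.mp hx with rfl | hx
            · exact hi
            · rw [Finset.mem_singleton.mp hx]; exact hi1) ⟨i, by simp⟩ 0 (fun _ _ => Nat.zero_le _)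
          rw [Finset.sum_pair hne] at h2
          have h3 : cap S {i, i1} = S i1 := by
            ext l
            simp [mem_cap, heq]
          rw [h3, heq, hτi, hτ1'] at h2
          have h4 := hG.lt i1 hi1
          omega
        have ha0 : ∀ a : ι → ℕ → L, (∀ i ∈ I, ∀ t < τ i, a i t = 0) →
            (∀ t < k, ∑ i ∈ I, a i t = 0) → a i1 0 = 0 := by
          intro a h2 h3
          have h4 := h3 0 (by omega)
          rw [Finset.sum_eq_single i1] at h4
          · exact h4
          · intro b hb hb1
            exact h2 b hb 0 (huniq b hb hb1)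
          · intro h5
            exact absurd hi1 h5
        rcases Nat.lt_or_ge ((S i1).card + 1) k with hk1 | hk1
        · -- raise `τ i1` to 1
          have hG' : Good k I S (Function.update τ i1 1) := by
            refine ⟨fun i hi => ?_, fun Ω hΩ hne m hm => ?_⟩
            · by_cases h2 : i = i1
              · subst h2
                rw [Function.update_self]
                exact hk1
              · rw [Function.update_of_ne h2]
                exact hG.lt i hi
            · by_cases h2 : i1 ∈ Ω
              · have h3 := hG.bound Ω hΩ hne 0 (fun _ _ => Nat.zero_le _)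
                have h4 : m ≤ 1 := by
                  have := hm i1 h2
                  rwa [Function.update_self] at this
                rw [← Finset.add_sum_erase Ω _ h2] at h3 ⊢
                rw [Function.update_self]
                have h5 : ∑ i ∈ Ω.erase i1, (k - (S i).card - Function.update τ i1 1 i) =
                    ∑ i ∈ Ω.erase i1, (k - (S i).card - τ i) := by
                  refine Finset.sum_congr rfl fun i hi => ?_
                  rw [Function.update_of_ne (Finset.mem_erase.mp hi).1]
                rw [h5]
                omega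
              · have h5 : ∑ i ∈ Ω, (k - (S i).card - Function.update τ i1 1 i) =
                    ∑ i ∈ Ω, (k - (S i).card - τ i) := by
                  refine Finset.sum_congr rfl fun i hi => ?_
                  rw [Function.update_of_ne]
                  rintro rfl
                  exact h2 hi
                rw [h5]
                apply hG.bound Ω hΩ hne m
                intro i hi
                have := hm i hi
                rwa [Function.update_of_ne] at this
                rintro rfl
                exact h2 hi
          have hA' : ∀ i ∈ I, 1 ≤ Function.update τ i1 1 i := by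
            intro i hi
            by_cases h2 : i = i1
            · subst h2
              rw [Function.update_self]
            · rw [Function.update_of_ne h2]
              exact huniq i hi h2
          subst hK
          obtain ⟨g', hg'⟩ := ihk K (by omega) I S _ (hG'.pred hA')
          obtain ⟨g, hg⟩ := caseA hA' hg'
          refine ⟨g, fun a h2 h3 h4 => hg a (fun i hi t ht => ?_) h3 h4⟩
          by_cases h5 : i = i1
          · subst h5
            rw [Function.update_self] at ht
            have : t = 0 := by omega
            rw [this]
            exact ha0 a h2 h4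
          · rw [Function.update_of_ne h5] at ht
            exact h2 i hi t ht
        · -- drop `i1`
          have hk2 : (S i1).card = K := by
            have := hG.lt i1 hi1
            omega
          have hA' : ∀ i ∈ I.erase i1, 1 ≤ τ i := by
            intro i hi
            rw [Finset.mem_erase] at hi
            exact huniq i hi.2 hi.1
          have hG' := hG.mono (Finset.erase_subset i1 I)
          subst hK
          obtain ⟨g', hg'⟩ := ihk K (by omega) (I.erase i1) S _ (hG'.pred hA')
          obtain ⟨g0, hg0⟩ := caseA hA' hg'
          obtain ⟨g, hgD, hg⟩ := hg0.exists_and Dind hDind0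
          have hind := hDind g hgD
          refine ⟨g, fun a h2 h3 h4 => ?_⟩
          have h5 : ∀ t < K + 1, a i1 t = 0 :=
            vanish hind.1 hind.2 hk2 (ha0 a h2 h4) (h3 i1 hi1)
          have h6 := hg a (fun i hi => h2 i (Finset.mem_of_mem_erase hi))
            (fun i hi => h3 i (Finset.mem_of_mem_erase hi)) (fun t ht => by
              have h7 := h4 t ht
              rw [← Finset.add_sum_erase I _ hi1, h5 t ht, zero_add] at h7
              exact h7)
          intro i hi t ht
          by_cases h7 : i = i1
          · rw [h7]
            exact h5 t ht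
          · exact h6 i (Finset.mem_erase.mpr ⟨h7, hi⟩) t ht
    intro S τ hG
    exact step2 _ S τ rfl hG
  intro I S τ hG
  exact step _ I rfl S τ hG

end

end Pool.Agent.W2helper91.GRS
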