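import Pool.Agent.W2helper91.GRS.Replace

/-!
# Reed-Solomon codes over small fields: the slack criterion
-/

open Polynomial

namespace Pool.Agent.W2helper91.GRS

open Pool.Agent.R558 (cap Good open_inj mem_cap Star)

section

variable {κ : Type*} [DecidableEq κ] [Fintype κ]

/-- generic points over an infinite field -/
theorem exists_generic {L : Type*} [Field L] [Infinite L] {k : ℕ} {Z : Fin k → Finset κ}
    (hZ : ∀ i, (Z i).card + 1 = k) (hstar : Star k Z) (D : MvPolynomial κ L) (hD : D ≠ 0) :
    ∃ x : κ → L, MvPolynomial.eval x D ≠ 0 ∧ Ind Z x := by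
  have hG : Good k Finset.univ Z (fun _ => 0) := by
    refine ⟨fun i _ => by have := hZ i; omega, fun Ω _ hne m hm => ?_⟩
    obtain ⟨i, hi⟩ := hne
    have h1 := hm i hi
    have h2 := hstar Ω ⟨i, hi⟩
    have h3 : ∑ i ∈ Ω, (k - (Z i).card - 0) = Ω.card := by
      rw [Finset.card_eq_sum_ones]
      refine Finset.sum_congr rfl fun i _ => ?_
      have := hZ i
      omega
    rw [h3]
    omega
  obtain ⟨g0, hg0⟩ := main_exists (L := L) k Finset.univ Z (fun _ => 0) hG
  obtain ⟨x, hxD, hx⟩ := hg0.exists_and D hD
  refine ⟨x, hxD, fun c hc => ?_⟩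
  have hdeg : ∀ i, (pp (Z i) x).natDegree < k := fun i => by
    rw [natDegree_pp]
    have := hZ i
    omega
  have key := hx (fun i t => c i * (pp (Z i) x).coeff t) ?_ ?_ ?_
  · funext i
    have h1 := key i (Finset.mem_univ i) (k - 1) (by have := hZ i; omega)
    have h2 : (pp (Z i) x).coeff (k - 1) = 1 := by
      have h3 : k - 1 = (pp (Z i) x).natDegree := by
        rw [natDegree_pp]
        have := hZ i
        omega
      rw [h3]
      exact monic_pp _ _
    rw [h2, mul_one] at h1
    exact h1
  · intro i _ t ht
    exact absurd ht (Nat.not_lt_zero t)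
  · intro i _ j hj
    have h1 : (pp (Z i) x).eval (x j) = 0 := by
      rw [eval_pp]
      exact Finset.prod_eq_zero hj (sub_self _)
    rw [eval_eq_sum_range' (hdeg i)] at h1
    have h2 : ∑ t ∈ Finset.range k, c i * (pp (Z i) x).coeff t * x j ^ t =
        c i * ∑ t ∈ Finset.range k, (pp (Z i) x).coeff t * x j ^ t := by
      rw [Finset.mul_sum]
      refine Finset.sum_congr rfl fun t _ => ?_
      ring
    rw [h2, h1, mul_zero]
  · intro t _
    have h1 := congrArg (fun p => p.coeff t) hc
    simp only [finsetSum_coeff, coeff_C_mul, coeff_zero] at h1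
    exact h1

/-- **The slack criterion.** -/
theorem exists_points {K : Type*} [Field K] [Fintype K] {k : ℕ} (hk : 0 < k)
    {Z : Fin k → Finset κ} (hZ : ∀ i, (Z i).card + 1 = k) (hstar : Star k Z)
    (hq : Fintype.card κ ≤ Fintype.card K)
    (hs : ∀ j, (Finset.univ.filter fun l => slack Z j ≤ slack Z l).card + slack Z j ≤
      Fintype.card K + 1) :
    ∃ y : κ → K, Function.Injective y ∧ Ind Z y := by
  classical
  let L := AlgebraicClosure K
  have : Infinite L := IsAlgClosed.instInfinite
  have key : ∀ S : Finset κ, ∃ x : κ → L, Function.Injective x ∧ Ind Z x ∧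
      ∀ l, l ∈ S ↔ x l ∈ Set.range (algebraMap K L) := by
    intro S
    induction S using Finset.induction_on_min_value (slack Z) with
    | empty =>
      obtain ⟨D1, hD1, hD1'⟩ := exists_dist_poly L κ
      set D2 : MvPolynomial κ L := ∏ j : κ, ∏ a : K,
        (MvPolynomial.X j - MvPolynomial.C (algebraMap K L a)) with hD2
      have hD20 : D2 ≠ 0 := by
        rw [hD2, Finset.prod_ne_zero_iff]
        intro j _
        rw [Finset.prod_ne_zero_iff]
        intro a _ h0
        have h1 := congrArg (MvPolynomial.eval (fun _ => algebraMap K L a + 1)) h0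
        rw [map_sub, map_zero, MvPolynomial.eval_X, MvPolynomial.eval_C] at h1
        simp at h1
      obtain ⟨x, hxD, hx⟩ := exists_generic hZ hstar (D1 * D2) (mul_ne_zero hD1 hD20)
      rw [map_mul] at hxD
      refine ⟨x, (hD1' x (left_ne_zero_of_mul hxD)).1, hx, fun l => ?_⟩
      have h2 := right_ne_zero_of_mul hxD
      rw [hD2, map_prod, Finset.prod_ne_zero_iff] at h2
      have h3 := h2 l (Finset.mem_univ l)
      rw [map_prod, Finset.prod_ne_zero_iff] at h3
      constructor
      · intro h
        exact absurd h (Finset.notMem_empty l)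
      · rintro ⟨a, ha⟩
        exfalso
        apply h3 a (Finset.mem_univ a)
        rw [map_sub, MvPolynomial.eval_X, MvPolynomial.eval_C, ha, sub_self]
    | insert j S hj hmin ih =>
      obtain ⟨x, hinj, hind, hS⟩ := ih
      have hsub : insert j S ⊆ Finset.univ.filter fun l => slack Z j ≤ slack Z l := by
        intro l hl
        rw [Finset.mem_filter]
        refine ⟨Finset.mem_univ _, ?_⟩
        rcases Finset.mem_insert.mp hl with rfl | hl
        · exact le_rfl
        · exact hmin l hl
      have h1 := Finset.card_le_card hsub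
      rw [Finset.card_insert_of_notMem hj] at h1
      have h2 := hs j
      have h3 : S.card + 1 ≤ Fintype.card κ := by
        rw [← Finset.card_insert_of_notMem hj]
        exact Finset.card_le_univ _
      exact step hk hZ hstar hj hinj hind hS (by omega) (by omega)
  obtain ⟨x, hinj, hind, hx⟩ := key Finset.univ
  choose y hy using fun l => (hx l).mp (Finset.mem_univ l)
  refine ⟨y, fun a b hab => hinj (by rw [← hy a, ← hy b, hab]), fun c hc => ?_⟩
  have h1 : ∀ A : Finset κ, (pp A y).map (algebraMap K L) = pp A x := by
    intro A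
    unfold pp
    rw [Polynomial.map_prod]
    refine Finset.prod_congr rfl fun l _ => ?_
    rw [Polynomial.map_sub, map_X, map_C, hy]
  have h2 := congrArg (Polynomial.map (algebraMap K L)) hc
  rw [Polynomial.map_zero, Polynomial.map_sum] at h2
  simp only [Polynomial.map_mul, map_C, h1] at h2
  have h3 := hind _ h2
  funext i
  have h4 := congrFun h3 i
  exact (map_eq_zero (algebraMap K L)).mp h4

end

/-- from independent polynomials to a generator matrix of a Reed-Solomon code -/
theorem rs_code {K : Type*} [Field K] {n k : ℕ} (hkn : k ≤ n) {Z : Fin k → Finset (Fin n)}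
    (hZ : ∀ i, (Z i).card + 1 = k) {y : Fin n → K} (hinj : Function.Injective y)
    (hind : Ind Z y) : ∃ G : Fin k → Fin n → K,
      (LinearIndependent K G ∧ (Submodule.span K (Set.range G) : Set (Fin n → K)) =
        {w | ∃ f : K[X], f.degree < k ∧ ∀ j, w j = f.eval (y j)}) ∧
      ∀ i, ∀ j ∈ Z i, G i j = 0 := by
  classical
  have hdeg : ∀ i, (pp (Z i) y).degree < k := fun i => degree_pp_lt (by have := hZ i; omega) _
  refine ⟨fun i j => (pp (Z i) y).eval (y j), ⟨?_, ?_⟩, ?_⟩
  · rw [Fintype.linearIndependent_iff]
    intro c hc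
    have h0 : ∑ i, C (c i) * pp (Z i) y = 0 := by
      apply eq_zero_of_degree_lt_of_eval_finset_eq_zero (Finset.univ.image y)
      · rw [Finset.card_image_of_injective _ hinj, Finset.card_univ, Fintype.card_fin]
        refine lt_of_lt_of_le (b := (k : WithBot ℕ)) ?_ (by exact_mod_cast hkn)
        refine lt_of_le_of_lt (degree_sum_le _ _) ?_
        rw [Finset.sup_lt_iff (by exact WithBot.bot_lt_coe _)]
        intro i _
        rw [← smul_eq_C_mul]
        exact lt_of_le_of_lt (degree_smul_le _ _) (hdeg i)
      · intro a ha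
        obtain ⟨j, _, rfl⟩ := Finset.mem_image.mp ha
        have h1 := congrFun hc j
        rw [Finset.sum_apply] at h1
        rw [eval_finsetSum]
        simp only [eval_mul, eval_C]
        simpa using h1
    have := hind c h0
    intro i
    exact congrFun this i
  · ext w
    constructor
    · intro hw
      have hw' : w ∈ Submodule.span K (Set.range fun i j => (pp (Z i) y).eval (y j)) := hw
      rw [Submodule.mem_span_range_iff_exists_fun] at hw'
      obtain ⟨c, hc⟩ := hw'
      refine ⟨∑ i, C (c i) * pp (Z i) y, ?_, fun j => ?_⟩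
      · refine lt_of_le_of_lt (degree_sum_le _ _) ?_
        rw [Finset.sup_lt_iff (by exact WithBot.bot_lt_coe _)]
        intro i _
        rw [← smul_eq_C_mul]
        exact lt_of_le_of_lt (degree_smul_le _ _) (hdeg i)
      · rw [← hc, Finset.sum_apply, eval_finsetSum]
        simp
    · rintro ⟨f, hf, hw⟩
      have hdet := (det_ne_zero_iff (fun i => pp (Z i) y) hdeg).mpr hind
      set M := Matrix.of fun i (t : Fin k) => (pp (Z i) y).coeff t with hM
      have hunit : IsUnit M.det := isUnit_iff_ne_zero.mpr hdet
      set v : Fin k → K := fun t => f.coeff t with hv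
      set c := Matrix.vecMul v M⁻¹ with hc
      have hcM : Matrix.vecMul c M = v := by
        rw [hc, Matrix.vecMul_vecMul, Matrix.nonsing_inv_mul _ hunit, Matrix.vecMul_one]
      have hf' : ∑ i, C (c i) * pp (Z i) y = f := by
        ext t
        simp only [finsetSum_coeff, coeff_C_mul]
        rcases Nat.lt_or_ge t k with ht | ht
        · have h1 := congrFun hcM ⟨t, ht⟩
          simp only [Matrix.vecMul, dotProduct, hM, Matrix.of_apply, hv] at h1
          exact h1
        · rw [coeff_eq_zero_of_degree_lt (lt_of_lt_of_le hf (by exact_mod_cast ht))]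
          apply Finset.sum_eq_zero
          intro i _
          rw [coeff_eq_zero_of_degree_lt, mul_zero]
          exact lt_of_lt_of_le (hdeg i) (by exact_mod_cast ht)
      change w ∈ Submodule.span K (Set.range fun i j => (pp (Z i) y).eval (y j))
      rw [Submodule.mem_span_range_iff_exists_fun]
      refine ⟨c, ?_⟩
      funext j
      rw [hw j, ← hf', Finset.sum_apply, eval_finsetSum]
      simp
  · intro i j hj
    dsimp only
    rw [eval_pp]
    exact Finset.prod_eq_zero hj (sub_self _)

end Pool.Agent.W2helper91.GRS
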