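import Pool.Agent.W2helper91.GRS.Induct
import Pool.Agent.R558.Extend

/-!
# Replacing generic points by points of a finite field, one at a time
-/

open Polynomial

namespace Pool.Agent.W2helper91.GRS

open Pool.Agent.R558 (cap Good open_inj mem_cap Star)

section

variable {L : Type*} [Field L] {κ : Type*} [DecidableEq κ]

/-- the monic polynomial with roots `x_l`, `l ∈ A` -/
noncomputable def pp (A : Finset κ) (x : κ → L) : L[X] := ∏ l ∈ A, (X - C (x l))

/-- the polynomials `∏_{l ∈ A_i} (Y - x_l)` are linearly independent -/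
def Ind {k : ℕ} (A : Fin k → Finset κ) (x : κ → L) : Prop :=
  ∀ c : Fin k → L, ∑ i, C (c i) * pp (A i) x = 0 → c = 0

omit [DecidableEq κ] in
lemma natDegree_pp (A : Finset κ) (x : κ → L) : (pp A x).natDegree = A.card := by
  unfold pp
  rw [natDegree_prod_of_monic _ _ (fun l _ => monic_X_sub_C (x l))]
  simp

omit [DecidableEq κ] in
lemma monic_pp (A : Finset κ) (x : κ → L) : (pp A x).Monic :=
  monic_prod_of_monic _ _ (fun l _ => monic_X_sub_C (x l))

omit [DecidableEq κ] in
lemma degree_pp_lt {k : ℕ} {A : Finset κ} (h : A.card < k) (x : κ → L) :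
    (pp A x).degree < k := by
  rw [degree_eq_natDegree (monic_pp A x).ne_zero, natDegree_pp]
  exact_mod_cast h

omit [DecidableEq κ] in
lemma eval_pp (A : Finset κ) (x : κ → L) (y : L) : (pp A x).eval y = ∏ l ∈ A, (y - x l) := by
  unfold pp
  rw [eval_prod]
  simp

theorem det_ne_zero_iff {k : ℕ} (f : Fin k → L[X]) (hf : ∀ i, (f i).degree < k) :
    (Matrix.of fun i (t : Fin k) => (f i).coeff t).det ≠ 0 ↔
      ∀ c : Fin k → L, ∑ i, C (c i) * f i = 0 → c = 0 := by
  rw [ne_eq, ← Matrix.exists_vecMul_eq_zero_iff]
  push Not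
  constructor
  · intro h c hc
    by_contra hne
    apply h c hne
    funext t
    have h1 := congrArg (fun p => p.coeff (t : ℕ)) hc
    simp only [finsetSum_coeff, coeff_C_mul, coeff_zero] at h1
    simp only [Matrix.vecMul, dotProduct, Matrix.of_apply, Pi.zero_apply]
    exact h1
  · intro h c hne h0
    apply hne (h c ?_)
    ext t
    simp only [finsetSum_coeff, coeff_C_mul, coeff_zero]
    rcases Nat.lt_or_ge t k with ht | ht
    · have h1 := congrFun h0 ⟨t, ht⟩
      simp only [Matrix.vecMul, dotProduct, Matrix.of_apply, Pi.zero_apply] at h1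
      exact h1
    · apply Finset.sum_eq_zero
      intro i _
      rw [coeff_eq_zero_of_degree_lt, mul_zero]
      exact lt_of_lt_of_le (hf i) (by exact_mod_cast ht)

/-- independent polynomials cannot have a common root -/
theorem exists_eval_ne {k : ℕ} (hk : 0 < k) (f : Fin k → L[X]) (hf : ∀ i, (f i).degree < k)
    (h : ∀ c : Fin k → L, ∑ i, C (c i) * f i = 0 → c = 0) (y : L) : ∃ i, (f i).eval y ≠ 0 := by
  by_contra hcon
  push Not at hcon
  apply (det_ne_zero_iff f hf).mpr h
  rw [← Matrix.exists_mulVec_eq_zero_iff]
  refine ⟨fun t => y ^ (t : ℕ), ?_, ?_⟩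
  · intro h0
    have := congrFun h0 ⟨0, hk⟩
    simp at this
  · funext i
    simp only [Matrix.mulVec, dotProduct, Matrix.of_apply, Pi.zero_apply]
    rw [← hcon i, eval_eq_sum_range' (n := k), Finset.sum_range]
    rcases eq_or_ne (f i) 0 with h0 | h0
    · rw [h0, natDegree_zero]; exact hk
    · exact (natDegree_lt_iff_degree_lt h0).mpr (hf i)

lemma pp_update {A : Finset κ} (x : κ → L) (j : κ) (T : L) :
    pp A (Function.update x j T) = if j ∈ A then (X - C T) * pp (A.erase j) x else
      pp (A.erase j) x := by
  have h1 : ∀ B : Finset κ, j ∉ B → pp B (Function.update x j T) = pp B x := by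
    intro B hB
    unfold pp
    refine Finset.prod_congr rfl fun l hl => ?_
    rw [Function.update_of_ne]
    rintro rfl
    exact hB hl
  split_ifs with h
  · rw [← h1 _ (Finset.notMem_erase j A)]
    unfold pp
    rw [← Finset.mul_prod_erase A _ h, Function.update_self]
  · rw [Finset.erase_eq_of_notMem h]
    exact h1 A h

/-- root counting -/
theorem root_count {k : ℕ} {Z : Fin k → Finset κ} (hZ : ∀ i, (Z i).card + 1 = k) (j : κ)
    {x : κ → L} (hx : Ind Z x) (B : Finset L)
    (hB : ∀ T ∈ B, ¬ Ind Z (Function.update x j T)) :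
    B.card + (Finset.univ.filter fun i => j ∉ Z i).card ≤ k ∧
    (B.card + (Finset.univ.filter fun i => j ∉ Z i).card = k →
      Ind (fun i => (Z i).erase j) x) := by
  classical
  set f : Fin k → L[X] := fun i => pp ((Z i).erase j) x with hf
  set a := (Finset.univ.filter fun i => j ∉ Z i).card with ha
  set N : Matrix (Fin k) (Fin k) L[X] := Matrix.of fun i t => if j ∈ Z i then
    C ((X * f i).coeff t) - X * C ((f i).coeff t) else C ((f i).coeff t) with hN
  have heval : ∀ T : L, N.det.eval T =
      (Matrix.of fun i (t : Fin k) => (pp (Z i) (Function.update x j T)).coeff t).det := by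
    intro T
    rw [← coe_evalRingHom, RingHom.map_det]
    congr 1
    ext i t
    rw [RingHom.mapMatrix_apply, Matrix.map_apply, hN, Matrix.of_apply, Matrix.of_apply,
      pp_update, coe_evalRingHom]
    split_ifs with h
    · rw [eval_sub, eval_mul, eval_C, eval_C, eval_X, sub_mul, coeff_sub, coeff_C_mul]
    · rw [eval_C]
  have hdeg : ∀ (T : L) (i : Fin k), (pp (Z i) (Function.update x j T)).degree < k :=
    fun T i => degree_pp_lt (by have := hZ i; omega) _
  have hR0 : N.det ≠ 0 := by
    intro h0
    have h1 := heval (x j)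
    rw [h0, eval_zero] at h1
    exact (det_ne_zero_iff _ (hdeg (x j))).mpr (by
      rw [Function.update_eq_self]
      exact hx) h1.symm
  have hroots : ∀ T ∈ B, N.det.eval T = 0 := by
    intro T hT
    by_contra h1
    rw [heval] at h1
    exact hB T hT ((det_ne_zero_iff _ (hdeg T)).mp h1)
  have hBdeg : B.card ≤ N.det.natDegree := by
    have hsub : B ⊆ N.det.roots.toFinset := by
      intro T hT
      rw [Multiset.mem_toFinset, mem_roots hR0]
      exact hroots T hT
    calc B.card ≤ N.det.roots.toFinset.card := Finset.card_le_card hsub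
      _ ≤ Multiset.card N.det.roots := Multiset.toFinset_card_le _
      _ ≤ _ := card_roots' _
  -- the homogenized determinant
  set A1 : Matrix (Fin k) (Fin k) L := Matrix.of fun i t => if j ∈ Z i then
    -(f i).coeff t else (f i).coeff t with hA1
  set A0 : Matrix (Fin k) (Fin k) L := Matrix.of fun i t => if j ∈ Z i then
    (X * f i).coeff t else 0 with hA0
  have hQ : X ^ a * N.det = ((X : L[X]) • A1.map C + A0.map C).det := by
    have h1 : ((X : L[X]) • A1.map C + A0.map C) =
        Matrix.of fun i t => (if j ∉ Z i then (X : L[X]) else 1) * N i t := by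
      ext1 i t
      rw [Matrix.add_apply, Matrix.smul_apply, Matrix.map_apply, Matrix.map_apply, hA1, hA0, hN]
      simp only [Matrix.of_apply, smul_eq_mul]
      by_cases h : j ∈ Z i
      · simp only [h, if_true, not_true, if_false, one_mul, C_neg]
        ring
      · simp only [h, if_false, not_false_iff, if_true, C_0, add_zero]
    rw [h1, Matrix.det_mul_column]
    congr 1
    rw [Finset.prod_ite, Finset.prod_const, Finset.prod_const_one, mul_one]
  have hdegQ : (X ^ a * N.det).natDegree ≤ k := by
    rw [hQ]
    have := natDegree_det_X_add_C_le A1 A0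
    simpa using this
  have hsum : N.det.natDegree + a ≤ k := by
    rw [natDegree_X_pow_mul _ hR0] at hdegQ
    exact hdegQ
  refine ⟨by omega, fun hBk => ?_⟩
  have hk' : N.det.natDegree + a = k := by omega
  have hcoeff : A1.det ≠ 0 := by
    have h1 := coeff_det_X_add_C_card A1 A0
    rw [← hQ, Fintype.card_fin] at h1
    have h2 : (X ^ a * N.det).coeff k = N.det.leadingCoeff := by
      have h3 := coeff_X_pow_mul N.det a N.det.natDegree
      rw [hk'] at h3
      rw [h3]
      rfl
    rw [← h1, h2]
    exact leadingCoeff_ne_zero.mpr hR0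
  intro c hc
  have hg := (det_ne_zero_iff (fun i => if j ∈ Z i then - f i else f i) (fun i => by
    have h1 : (f i).degree < k := degree_pp_lt (by
      have h2 := hZ i
      have h3 := Finset.card_le_card (Finset.erase_subset j (Z i))
      omega) _
    split_ifs
    · rw [degree_neg]; exact h1
    · exact h1)).mp (by
      have h1 : (Matrix.of fun i (t : Fin k) => ((fun i => if j ∈ Z i then - f i else f i) i).coeff
          (t : ℕ)) = A1 := by
        ext i t
        rw [hA1, Matrix.of_apply, Matrix.of_apply]
        dsimp only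
        split_ifs
        · rw [coeff_neg]
        · rfl
      rw [h1]
      exact hcoeff) (fun i => if j ∈ Z i then - c i else c i) (by
      rw [← hc]
      refine Finset.sum_congr rfl fun i _ => ?_
      dsimp only
      split_ifs
      · rw [C_neg]; ring
      · rfl)
  funext i
  have h1 := congrFun hg i
  split_ifs at h1
  · exact neg_eq_zero.mp h1
  · exact h1

/-- Möbius transformation: if the polynomials `∏_{l ∈ Z_i, l ≠ j} (Y - x_l)` are independent
(the point `j` is at infinity), then after `x ↦ 1/(x - u)` the original family is independent -/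
theorem moebius [Infinite L] {k : ℕ} {Z : Fin k → Finset κ} (hZ : ∀ i, (Z i).card + 1 = k) (j : κ)
    {x : κ → L} (hx : Ind (fun i => (Z i).erase j) x) {u : L} (hu : ∀ l, l ≠ j → x l ≠ u) :
    Ind Z (fun l => if l = j then 0 else (x l - u)⁻¹) := by
  classical
  intro c hc
  set μ : Fin k → L := fun i => ∏ l ∈ (Z i).erase j, (-(x l - u)⁻¹) with hμ
  have hμ0 : ∀ i, μ i ≠ 0 := by
    intro i
    rw [hμ]
    dsimp only
    rw [Finset.prod_ne_zero_iff]
    intro l hl
    rw [Finset.mem_erase] at hl
    exact neg_ne_zero.mpr (inv_ne_zero (sub_ne_zero.mpr (hu l hl.1)))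
  have hev : ∀ s : L, s ≠ u → ∀ i,
      (pp (Z i) (fun l => if l = j then 0 else (x l - u)⁻¹)).eval (s - u)⁻¹ =
      ((s - u)⁻¹) ^ (k - 1) * (μ i * (pp ((Z i).erase j) x).eval s) := by
    intro s hs i
    have hsu : s - u ≠ 0 := sub_ne_zero.mpr hs
    have h1 : ∀ A : Finset κ, j ∉ A → ∏ l ∈ A, ((s - u)⁻¹ - (if l = j then 0 else (x l - u)⁻¹)) =
        ((s - u)⁻¹) ^ A.card * ((∏ l ∈ A, (-(x l - u)⁻¹)) * ∏ l ∈ A, (s - x l)) := by
      intro A hA
      rw [← Finset.prod_mul_distrib, ← Finset.prod_const, ← Finset.prod_mul_distrib]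
      refine Finset.prod_congr rfl fun l hl => ?_
      have hlj : l ≠ j := by
        rintro rfl
        exact hA hl
      have hxu : x l - u ≠ 0 := sub_ne_zero.mpr (hu l hlj)
      rw [if_neg hlj]
      field_simp
      ring
    rw [eval_pp, eval_pp, hμ]
    dsimp only
    by_cases h : j ∈ Z i
    · rw [← Finset.mul_prod_erase (Z i) _ h, h1 _ (Finset.notMem_erase j _), if_pos rfl, sub_zero,
        Finset.card_erase_of_mem h, ← mul_assoc, ← pow_succ']
      congr 2
      have h2 := hZ i
      have h3 : 0 < (Z i).card := Finset.card_pos.mpr ⟨j, h⟩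
      omega
    · rw [Finset.erase_eq_of_notMem h, h1 _ h]
      congr 2
      have h2 := hZ i
      omega
  have hP : ∑ i, C (c i * μ i) * pp ((Z i).erase j) x = 0 := by
    have h1 : (X - C u) * ∑ i, C (c i * μ i) * pp ((Z i).erase j) x = 0 := by
      apply Polynomial.funext
      intro s
      rw [eval_zero, eval_mul, eval_sub, eval_X, eval_C]
      by_cases hs : s = u
      · rw [hs, sub_self, zero_mul]
      · have h2 := congrArg (eval (s - u)⁻¹) hc
        rw [eval_zero, eval_finsetSum] at h2
        simp only [eval_mul, eval_C, hev s hs] at h2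
        have hsu : s - u ≠ 0 := sub_ne_zero.mpr hs
        have h3 : ((s - u)⁻¹) ^ (k - 1) * ∑ i, (c i * μ i) * (pp ((Z i).erase j) x).eval s = 0 := by
          rw [← h2, Finset.mul_sum]
          refine Finset.sum_congr rfl fun i _ => ?_
          ring
        have h4 := (mul_eq_zero.mp h3).resolve_left (pow_ne_zero _ (inv_ne_zero hsu))
        rw [eval_finsetSum]
        simp only [eval_mul, eval_C]
        rw [h4, mul_zero]
    exact (mul_eq_zero.mp h1).resolve_left (X_sub_C_ne_zero u)
  have h5 := hx _ hP
  funext i
  have h6 := congrFun h5 i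
  exact (mul_eq_zero.mp h6).resolve_right (hμ0 i)

/-- the slack of (∗) at the complement of the sets containing `j` -/
def slack {k : ℕ} [Fintype κ] (Z : Fin k → Finset κ) (j : κ) : ℕ :=
  k - (Finset.univ.filter fun i => j ∉ Z i).card -
    (cap Z (Finset.univ.filter fun i => j ∉ Z i)).card

/-- **One replacement step.** -/
theorem step [Infinite L] [Fintype κ] {K : Type*} [Field K] [Fintype K] [Algebra K L] {k : ℕ}
    (hk : 0 < k) {Z : Fin k → Finset κ} (hZ : ∀ i, (Z i).card + 1 = k) (hstar : Star k Z)
    {S : Finset κ} {j : κ} (hj : j ∉ S) {x : κ → L} (hinj : Function.Injective x)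
    (hind : Ind Z x) (hS : ∀ l, l ∈ S ↔ x l ∈ Set.range (algebraMap K L))
    (hq : S.card + 1 ≤ Fintype.card K) (hs : S.card + slack Z j ≤ Fintype.card K) :
    ∃ y : κ → L, Function.Injective y ∧ Ind Z y ∧
      ∀ l, l ∈ insert j S ↔ y l ∈ Set.range (algebraMap K L) := by
  classical
  set Ω := Finset.univ.filter fun i => j ∉ Z i with hΩ
  set W := cap Z Ω with hW
  have hcapuniv := hstar Finset.univ ⟨⟨0, hk⟩, Finset.mem_univ _⟩
  have hΩne : Ω.Nonempty := by
    by_contra h0
    rw [Finset.not_nonempty_iff_eq_empty] at h0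
    have h1 : j ∈ cap Z Finset.univ := by
      rw [mem_cap]
      intro i _
      by_contra h2
      have h3 : i ∈ Ω := by rw [hΩ]; exact Finset.mem_filter.mpr ⟨Finset.mem_univ _, h2⟩
      rw [h0] at h3
      simp at h3
    have h2 : 0 < (cap Z Finset.univ).card := Finset.card_pos.mpr ⟨j, h1⟩
    rw [Finset.card_univ, Fintype.card_fin] at hcapuniv
    omega
  have hstarΩ := hstar Ω hΩne
  have hjW : ∀ l ∈ W, l ≠ j := by
    rintro l hl rfl
    obtain ⟨i, hi⟩ := hΩne
    have h1 := mem_cap.mp hl i hi
    rw [hΩ, Finset.mem_filter] at hi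
    exact hi.2 h1
  set R : Finset L := Finset.univ.image (algebraMap K L) with hR
  have hRmem : ∀ y, y ∈ R ↔ y ∈ Set.range (algebraMap K L) := by
    intro y
    rw [hR, Finset.mem_image, Set.mem_range]
    constructor
    · rintro ⟨a, _, h⟩
      exact ⟨a, h⟩
    · rintro ⟨a, h⟩
      exact ⟨a, Finset.mem_univ _, h⟩
  have hRcard : R.card = Fintype.card K := by
    rw [hR, Finset.card_image_of_injective _ (algebraMap K L).injective, Finset.card_univ]
  have hSR : S.image x ⊆ R := by
    intro y hy
    obtain ⟨l, hl, rfl⟩ := Finset.mem_image.mp hy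
    rw [hRmem]
    exact (hS l).mp hl
  set U := R \ S.image x with hU
  have hUcard : U.card + S.card = Fintype.card K := by
    have h1 := Finset.card_sdiff_add_card_eq_card hSR
    rw [Finset.card_image_of_injective _ hinj, hRcard] at h1
    exact h1
  have hUx : ∀ T ∈ U, ∀ l, x l ≠ T := by
    rintro T hT l rfl
    rw [hU, Finset.mem_sdiff, hRmem] at hT
    exact hT.2 (Finset.mem_image_of_mem _ ((hS l).mpr hT.1))
  by_cases hgood : ∃ T ∈ U, Ind Z (Function.update x j T)
  · obtain ⟨T, hT, hTI⟩ := hgood
    refine ⟨_, ?_, hTI, ?_⟩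
    · intro a b hab
      by_cases ha : a = j
      · by_cases hb : b = j
        · rw [ha, hb]
        · rw [ha, Function.update_self, Function.update_of_ne hb] at hab
          exact absurd hab.symm (hUx T hT b)
      · by_cases hb : b = j
        · rw [hb, Function.update_self, Function.update_of_ne ha] at hab
          exact absurd hab (hUx T hT a)
        · rw [Function.update_of_ne ha, Function.update_of_ne hb] at hab
          exact hinj hab
    · intro l
      by_cases hl : l = j
      · subst hl
        rw [Function.update_self, ← hRmem]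
        simp only [Finset.mem_insert, true_or, true_iff]
        exact (Finset.mem_sdiff.mp hT).1
      · rw [Function.update_of_ne hl, Finset.mem_insert, ← hS l]
        simp [hl]
  · push Not at hgood
    have hdisj : Disjoint U (W.image x) := by
      rw [Finset.disjoint_left]
      intro y hy hy'
      obtain ⟨l, hl, rfl⟩ := Finset.mem_image.mp hy'
      exact hUx _ hy l rfl
    have hB : ∀ T ∈ U ∪ W.image x, ¬ Ind Z (Function.update x j T) := by
      intro T hT
      rcases Finset.mem_union.mp hT with hT | hT
      · exact hgood T hT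
      · obtain ⟨l, hl, rfl⟩ := Finset.mem_image.mp hT
        intro hI
        obtain ⟨i, hi⟩ := exists_eval_ne hk (fun i => pp (Z i) (Function.update x j (x l)))
          (fun i => degree_pp_lt (by have := hZ i; omega) _) hI (x l)
        apply hi
        rw [eval_pp]
        by_cases hji : j ∈ Z i
        · apply Finset.prod_eq_zero hji
          rw [Function.update_self, sub_self]
        · have hiΩ : i ∈ Ω := by
            rw [hΩ]
            exact Finset.mem_filter.mpr ⟨Finset.mem_univ _, hji⟩
          apply Finset.prod_eq_zero (mem_cap.mp hl i hiΩ)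
          rw [Function.update_of_ne (hjW l hl), sub_self]
    obtain ⟨h1, h2⟩ := root_count hZ j hind _ hB
    have hcardB : (U ∪ W.image x).card = U.card + W.card := by
      rw [Finset.card_union_of_disjoint hdisj, Finset.card_image_of_injective _ hinj]
    have hsl : slack Z j = k - Ω.card - W.card := rfl
    have hI := h2 (by
      rw [hcardB] at h1 ⊢
      rw [← hΩ] at h1 ⊢
      omega)
    obtain ⟨T0, hT0⟩ : U.Nonempty := Finset.card_pos.mp (by omega)
    obtain ⟨u0, hu0⟩ := (hRmem T0).mp (Finset.mem_sdiff.mp hT0).1
    refine ⟨_, ?_, moebius hZ j hI (u := T0) (fun l _ => hUx T0 hT0 l), ?_⟩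
    · have hne : ∀ l, (x l - T0)⁻¹ ≠ 0 := fun l =>
        inv_ne_zero (sub_ne_zero.mpr (hUx T0 hT0 l))
      intro a b hab
      by_cases ha : a = j
      · by_cases hb : b = j
        · rw [ha, hb]
        · simp only [ha, hb, if_true, if_false] at hab
          exact absurd hab.symm (hne b)
      · by_cases hb : b = j
        · simp only [ha, hb, if_true, if_false] at hab
          exact absurd hab (hne a)
        · simp only [ha, hb, if_false] at hab
          have := inv_injective hab
          exact hinj (sub_left_injective this)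
    · intro l
      by_cases hl : l = j
      · simp only [hl, Finset.mem_insert, true_or, if_true, true_iff]
        exact ⟨0, map_zero _⟩
      · simp only [hl, Finset.mem_insert, false_or, if_false]
        rw [hS l]
        constructor
        · rintro ⟨a, ha⟩
          refine ⟨(a - u0)⁻¹, ?_⟩
          rw [map_inv₀, map_sub, ha, hu0]
        · rintro ⟨a, ha⟩
          refine ⟨a⁻¹ + u0, ?_⟩
          rw [map_add, map_inv₀, ha, hu0, inv_inv]
          ring

end

end Pool.Agent.W2helper91.GRS
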