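import Pool.Agent.R558.Induct

/-!
# Independence of spaces of polynomials with prescribed zeros: generic points
(the ordinary-polynomial analogue of `Pool.Agent.R558.System`)
-/

open Polynomial

namespace Pool.Agent.W2helper91.GRS

open Pool.Agent.R558 (cap Good open_inj mem_cap)

section

variable {L : Type*} [Field L] {ι κ : Type*} [DecidableEq ι] [Fintype κ] [DecidableEq κ]

/-- The family of spaces `{a : a_t = 0 (t < τ_i), ∑_{t<k} a_t g_j^t = 0 (j ∈ S_i)}`, `i ∈ I`, of
vectors of length `k` is independent. -/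
def PInj (k : ℕ) (I : Finset ι) (S : ι → Finset κ) (τ : ι → ℕ) (g : κ → L) : Prop :=
  ∀ a : ι → ℕ → L, (∀ i ∈ I, ∀ t < τ i, a i t = 0) →
    (∀ i ∈ I, ∀ j ∈ S i, ∑ t ∈ Finset.range k, a i t * g j ^ t = 0) →
    (∀ t < k, ∑ i ∈ I, a i t = 0) → ∀ i ∈ I, ∀ t < k, a i t = 0

/-- the matrix of the conditions -/
noncomputable def pcondMat {R : Type*} [CommRing R] (k : ℕ) (I : Finset ι) (S : ι → Finset κ)
    (τ : ι → ℕ) (g : κ → R) :
    Matrix ((I × Fin k) ⊕ ((I × κ) ⊕ Fin k)) (I × Fin k) R := fun w v =>
  match w with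
  | Sum.inl (i, t) => if (i, t) = v ∧ (t : ℕ) < τ i then 1 else 0
  | Sum.inr (Sum.inl (i, j)) => if i = v.1 ∧ j ∈ S i then g j ^ (v.2 : ℕ) else 0
  | Sum.inr (Sum.inr t) => if t = v.2 then 1 else 0

theorem pinj_iff (k : ℕ) (I : Finset ι) (S : ι → Finset κ) (τ : ι → ℕ) (g : κ → L) :
    PInj k I S τ g ↔ ∀ v, (pcondMat k I S τ g).mulVec v = 0 → v = 0 := by
  constructor
  · intro h v hv
    let a : ι → ℕ → L := fun i t =>
      if h : i ∈ I ∧ t < k then v (⟨i, h.1⟩, ⟨t, h.2⟩) else 0
    have ha : ∀ (i : I) (t : Fin k), a i t = v (i, t) := by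
      intro i t
      simp only [a]
      rw [dif_pos ⟨i.2, t.2⟩]
    have key := h a ?_ ?_ ?_
    · funext ⟨i, t⟩
      rw [← ha]
      exact key i i.2 t t.2
    · intro i hi t ht
      by_cases htk : t < k
      · have h1 := congrFun hv (Sum.inl (⟨i, hi⟩, ⟨t, htk⟩))
        rw [Matrix.mulVec, dotProduct, Finset.sum_eq_single (⟨i, hi⟩, ⟨t, htk⟩)] at h1
        · simp only [pcondMat, ht, and_self, if_true, one_mul, Pi.zero_apply] at h1
          rw [← h1]
          exact ha ⟨i, hi⟩ ⟨t, htk⟩
        · intro b _ hb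
          simp only [pcondMat]
          rw [if_neg, zero_mul]
          rintro ⟨h2, -⟩
          exact hb h2.symm
        · simp
      · simp only [a]
        rw [dif_neg]
        rintro ⟨-, h2⟩
        exact htk h2
    · intro i hi j hj
      have h1 := congrFun hv (Sum.inr (Sum.inl (⟨i, hi⟩, j)))
      rw [Matrix.mulVec, dotProduct, Fintype.sum_prod_type, Finset.sum_eq_single ⟨i, hi⟩] at h1
      · simp only [pcondMat, hj, and_self, if_true, Pi.zero_apply] at h1
        rw [Finset.sum_range, ← h1]
        refine Finset.sum_congr rfl fun t _ => ?_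
        rw [mul_comm]
        congr 1
        exact ha ⟨i, hi⟩ t
      · intro b _ hb
        apply Finset.sum_eq_zero
        intro t _
        simp only [pcondMat]
        rw [if_neg, zero_mul]
        rintro ⟨h2, -⟩
        exact hb h2.symm
      · simp
    · intro t ht
      have h1 := congrFun hv (Sum.inr (Sum.inr ⟨t, ht⟩))
      rw [Matrix.mulVec, dotProduct, Fintype.sum_prod_type] at h1
      simp only [pcondMat, Pi.zero_apply] at h1
      rw [← Finset.sum_coe_sort, ← h1]
      refine Finset.sum_congr rfl fun i _ => ?_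
      rw [Finset.sum_eq_single ⟨t, ht⟩]
      · simp only [if_true, one_mul]
        exact ha i ⟨t, ht⟩
      · intro b _ hb
        rw [if_neg (Ne.symm hb), zero_mul]
      · simp
  · intro h a h1 h2 h3 i hi t ht
    have key := h (fun v => a v.1 v.2) ?_
    · exact congrFun key (⟨i, hi⟩, ⟨t, ht⟩)
    · funext w
      rw [Matrix.mulVec, dotProduct]
      rcases w with ⟨i, t⟩ | ⟨i, j⟩ | t
      · rw [Finset.sum_eq_single (i, t)]
        · simp only [pcondMat, true_and, Pi.zero_apply]
          split_ifs with h4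
          · rw [h1 i i.2 t h4, mul_zero]
          · rw [zero_mul]
        · intro b _ hb
          simp only [pcondMat]
          rw [if_neg, zero_mul]
          rintro ⟨h4, -⟩
          exact hb h4.symm
        · simp
      · rw [Fintype.sum_prod_type, Finset.sum_eq_single i]
        · simp only [pcondMat, true_and, Pi.zero_apply]
          split_ifs with h4
          · have h5 := h2 i i.2 j h4
            rw [Finset.sum_range] at h5
            refine Eq.trans ?_ h5
            refine Finset.sum_congr rfl fun t _ => ?_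
            rw [mul_comm]
          · simp
        · intro b _ hb
          apply Finset.sum_eq_zero
          intro t _
          simp only [pcondMat]
          rw [if_neg, zero_mul]
          rintro ⟨h4, -⟩
          exact hb h4.symm
        · simp
      · rw [Fintype.sum_prod_type]
        simp only [pcondMat, Pi.zero_apply]
        have h5 := h3 t t.2
        rw [← Finset.sum_coe_sort] at h5
        refine Eq.trans ?_ h5
        refine Finset.sum_congr rfl fun i _ => ?_
        rw [Finset.sum_eq_single t]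
        · simp
        · intro b _ hb
          rw [if_neg (Ne.symm hb), zero_mul]
        · simp

omit [Fintype κ] [DecidableEq κ] in
lemma paeval_eq (g : κ → L) (r : MvPolynomial κ L) :
    MvPolynomial.aeval g r = MvPolynomial.eval g r := by
  rw [← MvPolynomial.coe_aeval_eq_eval]
  rfl

/-- openness of `Inj` -/
theorem PInj.exists_poly {k : ℕ} {I : Finset ι} {S : ι → Finset κ} {τ : ι → ℕ} {g0 : κ → L}
    (h : PInj k I S τ g0) : ∃ Δ : MvPolynomial κ L, MvPolynomial.eval g0 Δ ≠ 0 ∧
      ∀ g : κ → L, MvPolynomial.eval g Δ ≠ 0 → PInj k I S τ g := by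
  have hmap : ∀ g : κ → L, (pcondMat k I S τ (MvPolynomial.X : κ → MvPolynomial κ L)).map
      (MvPolynomial.aeval g) = pcondMat k I S τ g := by
    intro g
    ext w v
    rw [Matrix.map_apply]
    rcases w with ⟨i, t⟩ | ⟨i, j⟩ | t
    · simp only [pcondMat]
      split_ifs <;> simp
    · simp only [pcondMat]
      split_ifs <;> simp
    · simp only [pcondMat]
      split_ifs <;> simp
  obtain ⟨r, hr0, hr⟩ := open_inj (L := L)
    (pcondMat k I S τ (MvPolynomial.X : κ → MvPolynomial κ L)) (MvPolynomial.aeval g0) (by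
      rw [hmap]
      exact (pinj_iff k I S τ g0).mp h)
  refine ⟨r, ?_, ?_⟩
  · rwa [paeval_eq] at hr0
  · intro g hg
    rw [pinj_iff, ← hmap]
    apply hr
    rwa [paeval_eq]

/-- over an infinite field `Inj` can be combined with the nonvanishing of a polynomial -/
theorem PInj.exists_and [Infinite L] {k : ℕ} {I : Finset ι} {S : ι → Finset κ} {τ : ι → ℕ}
    {g0 : κ → L} (h : PInj k I S τ g0) (D : MvPolynomial κ L) (hD : D ≠ 0) :
    ∃ g : κ → L, MvPolynomial.eval g D ≠ 0 ∧ PInj k I S τ g := by
  obtain ⟨Δ, h0, h1⟩ := h.exists_poly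
  have hΔ : Δ ≠ 0 := by
    rintro rfl
    simp at h0
  have hne : D * Δ ≠ 0 := mul_ne_zero hD hΔ
  have : ∃ g : κ → L, MvPolynomial.eval g (D * Δ) ≠ 0 := by
    by_contra hcon
    push Not at hcon
    apply hne
    apply MvPolynomial.funext
    intro x
    rw [hcon x, map_zero]
  obtain ⟨g, hg⟩ := this
  rw [map_mul] at hg
  exact ⟨g, left_ne_zero_of_mul hg, h1 g (right_ne_zero_of_mul hg)⟩

end

end Pool.Agent.W2helper91.GRS
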